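import Pool.Agent.H78.S.Targets

/-!
# Theorem S (MP_9d0bb7_lc), page H78_S.md: the number of lines (N26)
-/

set_option autoImplicit false

open Set Pool.Agent.H77.BC Pool.Agent.H78.S
open scoped Pointwise

namespace Pool.Agent.H7.S

section

variable {M : Type} {U : RU M} {G : Type} [Group G] [Cod M G] [DG U G]

/-- two subgroups of a commutative connected group whose ranks are large have product `T` -/
private theorem prodAll (hIDX : T_IDX) {T A B : Subgroup G} (hT : Conn U T) (hCom : Com T)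
    (hA : U.D (A : Set G)) (hB : U.D (B : Set G)) (hAT : A ≤ T) (hBT : B ≤ T)
    (h : U.R (T : Set G) + U.R ((A ⊓ B : Subgroup G) : Set G) ≤
      U.R (A : Set G) + U.R (B : Set G)) :
    ∀ t ∈ T, ∃ a ∈ A, ∃ b ∈ B, t = a * b := by
  let C : Subgroup G :=
    { carrier := {g | ∃ a ∈ A, ∃ b ∈ B, g = a * b}
      one_mem' := ⟨1, A.one_mem, 1, B.one_mem, (mul_one 1).symm⟩
      mul_mem' := by
        rintro x y ⟨a, ha, b, hb, rfl⟩ ⟨a', ha', b', hb', rfl⟩
        refine ⟨a * a', A.mul_mem ha ha', b * b', B.mul_mem hb hb', ?_⟩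
        have h1 : b * a' = a' * b := hCom b (hBT hb) a' (hAT ha')
        calc a * b * (a' * b') = a * (b * a') * b' := by group
          _ = a * (a' * b) * b' := by rw [h1]
          _ = a * a' * (b * b') := by group
      inv_mem' := by
        rintro x ⟨a, ha, b, hb, rfl⟩
        refine ⟨a⁻¹, A.inv_mem ha, b⁻¹, B.inv_mem hb, ?_⟩
        rw [hCom a (hAT ha) b (hBT hb), mul_inv_rev] }
  have hmem : ∀ g, g ∈ C ↔ ∃ a ∈ A, ∃ b ∈ B, g = a * b := fun g => Iff.rfl
  have hC : U.D (C : Set G) := by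
    have h1 : U.D ((fun p : G × G => p.1 * p.2) '' ((A : Set G) ×ˢ (B : Set G))) :=
      DFn_image DG.mul (D_prod hA hB)
    have h2 : (C : Set G) = (fun p : G × G => p.1 * p.2) '' ((A : Set G) ×ˢ (B : Set G)) := by
      ext g
      constructor
      · rintro ⟨a, ha, b, hb, rfl⟩
        exact ⟨(a, b), ⟨ha, hb⟩, rfl⟩
      · rintro ⟨⟨a, b⟩, ⟨ha, hb⟩, rfl⟩
        exact ⟨a, ha, b, hb, rfl⟩
    rw [h2]
    exact h1
  have hAC : A ≤ C := fun a ha => ⟨a, ha, 1, B.one_mem, (mul_one a).symm⟩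
  have hBC : B ≤ C := fun b hb => ⟨1, A.one_mem, b, hb, (one_mul b).symm⟩
  have hCT : C ≤ T := by
    rintro g ⟨a, ha, b, hb, rfl⟩
    exact T.mul_mem (hAT ha) (hBT hb)
  have h1 := hIDX U C A B hC hA hB hAC hBC (fun t ht => ht)
  have h2 : U.R (T : Set G) ≤ U.R (C : Set G) := by omega
  have h3 : C = T := hT.2 C hCT hC h2
  intro t ht
  rw [← h3] at ht
  exact ht

end

/-- N26: the number of lines -/
theorem pf_N26 (hTRS : T_TRS) (hLAB : T_LAB) (hLNK : T_LNK) (hLFI : T_LFI) (hHIC : T_HIC)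
    (hHIJ : T_HIJ) (hCTB : T_CTB) (hIDX : T_IDX) : T_N26 := by
  intro M U G S _ _ _ _ n x hF hI hCom hR s k hk1 hsk hfin hrk hlam htor
  have := hF.dg
  have := hF.ful
  obtain ⟨T, hTdef⟩ : ∃ T : Subgroup G, T = TT U G x 0 := ⟨_, rfl⟩
  have h01 : (0 : Fin (n + 2)) ≠ 1 := by
    simp
  have hConn : Conn U T := by
    rw [hTdef]
    exact (hHIJ U x hF 0 1 h01).2.1
  rw [← hTdef] at hCom hR
  -- the lines
  let Ln : Type := {l : Fin (n + 2) × Set (S × S) // l.1 ≠ 0 ∧ l.2 ∈ LL U G x l.1}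
  have hLn : Finite Ln := by
    refine Set.Finite.to_subtype (s := {l : Fin (n + 2) × Set (S × S) |
      l.1 ≠ 0 ∧ l.2 ∈ LL U G x l.1}) ?_
    refine (Set.finite_iUnion (f := fun i : {i : Fin (n + 2) // i ≠ 0} =>
      (Prod.mk i.1) '' (LL U G x i.1)) (fun i => (hfin i.1 i.2).1.image _)).subset ?_
    rintro ⟨i, E⟩ ⟨h1, h2⟩
    exact mem_iUnion.2 ⟨⟨i, h1⟩, E, h2, rfl⟩
  have hctx : ∀ l : Ln, Ctx U (HH U G x 0 l.1.1) (XX U G x l.1.1) T (x l.1.1) (x 0) := by
    intro l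
    rw [hTdef]
    exact (hHIC U x hF l.1.1 l.2.1).1
  let L : ∀ l : Ln, LF U G x l.1.1 l.1.2 := fun l => Classical.choice l.2.2
  let χ : ∀ l : Ln, G → (L l).K := fun l t => (L l).f (t • x 0)
  have hχ0 : ∀ l : Ln, ∀ t ∈ T, χ l t ≠ 0 := fun l t ht =>
    ((hLNK U hF.act _ _ _ _ _ (hctx l) _ (L l)).1 t ht).1
  have hχm : ∀ l : Ln, ∀ a ∈ T, ∀ b ∈ T, χ l (a * b) = χ l a * χ l b := by
    intro l a ha b hb
    have h1 := ((hLNK U hF.act _ _ _ _ _ (hctx l) _ (L l)).1 a ha).2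
    obtain ⟨-, -, -, -, -, -, -, -, -, -, -, hOrb, -⟩ := hCTB U hF.act _ _ _ _ _ (hctx l)
    have h2 := h1 (b • x 0) (hOrb ⟨b, hb, rfl⟩)
    change (L l).f ((a * b) • x 0) = _
    rw [mul_smul]
    exact h2
  have hχs : ∀ l : Ln, ∀ k : (L l).K, k ≠ 0 → ∃ t ∈ T, χ l t = k := fun l =>
    (hLNK U hF.act _ _ _ _ _ (hctx l) _ (L l)).2.1
  have hkap : ∀ l : Ln, ∀ t, t ∈ kap T l.1.2 ↔ t ∈ T ∧ χ l t = 1 := fun l =>
    (hLNK U hF.act _ _ _ _ _ (hctx l) _ (L l)).2.2.1
  have hkD : ∀ l : Ln, U.D (kap T l.1.2 : Set G) := fun l =>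
    (hLNK U hF.act _ _ _ _ _ (hctx l) _ (L l)).2.2.2.2.2.1
  have hkR : ∀ l : Ln, U.R (kap T l.1.2 : Set G) + 1 = n := by
    intro l
    rw [hTdef]
    exact hrk l.1.1 l.2.1 l.1.2 l.2.2
  have hkT : ∀ l : Ln, kap T l.1.2 ≤ T := fun l t ht => ((hkap l t).1 ht).1
  -- a set of `k` indices
  obtain ⟨J, hJ0, hJk⟩ : ∃ J : Set (Fin (n + 2)), 0 ∉ J ∧ J.ncard = k := by
    have h1 : k ≤ ((Finset.univ : Finset (Fin (n + 2))).erase 0).card := by
      rw [Finset.card_erase_of_mem (Finset.mem_univ _), Finset.card_univ, Fintype.card_fin]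
      omega
    obtain ⟨t, ht, htk⟩ := Finset.exists_subset_card_eq h1
    refine ⟨(t : Set (Fin (n + 2))), ?_, ?_⟩
    · intro h0
      exact (Finset.mem_erase.1 (ht (Finset.mem_coe.1 h0))).1 rfl
    · rw [Set.ncard_coe_finset, htk]
  have hlamJ : U.R (lam U G x J : Set G) = 0 := by
    have h1 := hlam J hJ0 (by omega) (by omega)
    omega
  have hlamD : U.D (lam U G x J : Set G) := (hLAB U x hF J hJ0).1
  -- the induction
  have hind : ∀ m : ℕ, m ≤ n → ∃ (μ : Subgroup G) (c : Fin m → Ln), U.D (μ : Set G) ∧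
      U.R (μ : Set G) + m = n ∧ (∀ t, t ∈ μ ↔ t ∈ T ∧ ∀ j, χ (c j) t = 1) ∧
      ∀ u : (∀ j, (L (c j)).K), (∀ j, u j ≠ 0) → ∃ t ∈ T, ∀ j, χ (c j) t = u j := by
    intro m
    induction m with
    | zero =>
      intro _
      refine ⟨T, fun j => j.elim0, hConn.1, by rw [hR]; rfl, ?_, ?_⟩
      · intro t
        exact ⟨fun h => ⟨h, fun j => j.elim0⟩, fun h => h.1⟩
      · intro u _
        exact ⟨1, T.one_mem, fun j => j.elim0⟩
    | succ m ih =>
      intro hm
      obtain ⟨μ, c, hμD, hμR, hμ, hon⟩ := ih (by omega)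
      have hμT : μ ≤ T := fun t ht => ((hμ t).1 ht).1
      -- a line whose kernel lowers the rank
      obtain ⟨l, hl⟩ : ∃ l : Ln, U.R ((μ ⊓ kap T l.1.2 : Subgroup G) : Set G) <
          U.R (μ : Set G) := by
        by_contra hcon
        push Not at hcon
        have h1 : ∀ l : Ln, (kap T l.1.2).relIndex μ ≠ 0 := by
          intro l
          have h2 := (l_GRA U μ (μ ⊓ kap T l.1.2) hμD (D_inter hμD (hkD l)) inf_le_left).2
            (hcon l)
          rw [Subgroup.inf_relIndex_left] at h2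
          exact h2
        have h2 : (⨅ l : Ln, kap T l.1.2).relIndex μ ≠ 0 := Subgroup.relIndex_iInf_ne_zero h1
        have h3 : U.D ((μ ⊓ ⨅ l : Ln, kap T l.1.2 : Subgroup G) : Set G) := by
          have h4 : U.D {g : G | g ∈ μ ∧ ∀ l : Ln, g ∈ kap T l.1.2} :=
            D_and hμD (D_forall_fin fun l => hkD l)
          have h5 : ((μ ⊓ ⨅ l : Ln, kap T l.1.2 : Subgroup G) : Set G) =
              {g : G | g ∈ μ ∧ ∀ l : Ln, g ∈ kap T l.1.2} := by
            ext g
            rw [SetLike.mem_coe, Subgroup.mem_inf, Subgroup.mem_iInf]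
            exact Iff.rfl
          rw [h5]
          exact h4
        have h4 := (l_GRA U μ (μ ⊓ ⨅ l : Ln, kap T l.1.2) hμD h3 inf_le_left).1 (by
          rw [Subgroup.inf_relIndex_left]
          exact h2)
        have h5 : (μ ⊓ ⨅ l : Ln, kap T l.1.2) ≤ lam U G x J := by
          intro g hg
          rw [Subgroup.mem_inf, Subgroup.mem_iInf] at hg
          unfold lam
          rw [← hTdef, Subgroup.mem_inf]
          refine ⟨hμT hg.1, ?_⟩
          rw [Subgroup.mem_iInf]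
          intro i
          rw [Subgroup.mem_iInf]
          intro hi
          rw [Subgroup.mem_iInf]
          intro E
          rw [Subgroup.mem_iInf]
          intro hE
          exact hg.2 ⟨(i, E), fun h0 => hJ0 (h0 ▸ hi), hE⟩
        have h6 := (l_RKA U).mono h3 hlamD ⟨1, Subgroup.one_mem _⟩ h5
        omega
      have hGRB := l_GRB U T μ (kap T l.1.2) hConn.1 hμD (hkD l) hμT (hkT l)
      have hkRl := hkR l
      have hR' : U.R ((μ ⊓ kap T l.1.2 : Subgroup G) : Set G) + (m + 1) = n := by omega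
      have hprod := prodAll hIDX hConn hCom hμD (hkD l) hμT (hkT l) (by omega)
      refine ⟨μ ⊓ kap T l.1.2, Fin.cons l c, D_inter hμD (hkD l), hR', ?_, ?_⟩
      · intro t
        rw [Subgroup.mem_inf, hμ, hkap]
        constructor
        · rintro ⟨⟨h1, h2⟩, -, h3⟩
          refine ⟨h1, fun j => ?_⟩
          refine Fin.cases ?_ ?_ j
          · exact h3
          · exact h2
        · rintro ⟨h1, h2⟩
          exact ⟨⟨h1, fun j => h2 j.succ⟩, h1, h2 0⟩
      · intro u hu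
        obtain ⟨t0, ht0, ht0u⟩ := hon (fun j => u j.succ) (fun j => hu j.succ)
        obtain ⟨u0, hu0⟩ : ∃ v : (L l).K, v = u 0 := ⟨u 0, rfl⟩
        have hu0' : u0 ≠ 0 := by
          rw [hu0]
          exact hu 0
        obtain ⟨t1, ht1, ht1u⟩ := hχs l (u0 * (χ l t0)⁻¹)
          (mul_ne_zero hu0' (inv_ne_zero (hχ0 l t0 ht0)))
        obtain ⟨a, ha, b, hb, hab⟩ := hprod t1 ht1
        have haT := hμT ha
        have hbT := hkT l hb
        have h1 : χ l a = u0 * (χ l t0)⁻¹ := by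
          rw [← ht1u, hab, hχm l a haT b hbT, ((hkap l b).1 hb).2, mul_one]
        refine ⟨a * t0, T.mul_mem haT ht0, fun j => ?_⟩
        refine Fin.cases ?_ ?_ j
        · refine Eq.trans ?_ hu0
          change χ l (a * t0) = u0
          rw [hχm l a haT t0 ht0, h1, mul_assoc, inv_mul_cancel₀ (hχ0 l t0 ht0), mul_one]
        · intro i
          change χ (c i) (a * t0) = u i.succ
          rw [hχm (c i) a haT t0 ht0, ((hμ a).1 ha).2 i, one_mul]
          exact ht0u i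
  obtain ⟨μ, c, hμD, hμR, hμ, hon⟩ := hind n le_rfl
  have hμfin : (μ : Set G).Finite := by
    refine ((l_RKA U).fin hμD ⟨1, μ.one_mem⟩).1 (by omega)
  let _ : CommGroup T := { (inferInstance : Group T) with
    mul_comm := fun a b => Subtype.ext (hCom a a.2 b b.2) }
  have hac : ∀ j : Fin n, IsAlgClosed (L (c j)).K := fun j =>
    hI.mac hF.act _ _ _ _ _ (hctx (c j)) _ (L (c j))
  let ψ : ∀ j : Fin n, T →* ((L (c j)).K)ˣ := fun j =>
    MonoidHom.mk' (fun t => Units.mk0 (χ (c j) t) (hχ0 (c j) t t.2)) (fun a b => by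
      apply Units.ext
      exact hχm (c j) a a.2 b b.2)
  obtain ⟨q1, hq1⟩ := hTRS T n (fun j => (L (c j)).K) ψ (by
    intro u
    obtain ⟨t, ht, htu⟩ := hon (fun j => (u j : (L (c j)).K)) (fun j => (u j).ne_zero)
    exact ⟨⟨t, ht⟩, fun j => Units.ext (htu j)⟩) (by
    refine (hμfin.preimage (f := fun t : T => (t : G))
      (Subtype.val_injective.injOn)).subset ?_
    intro a ha
    change (a : G) ∈ μ
    rw [hμ]
    exact ⟨a.2, fun j => congrArg Units.val (ha j)⟩)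
  obtain ⟨q0, hq0⟩ := htor
  obtain ⟨q, hq, hqp⟩ := Nat.exists_infinite_primes (q0 + q1 + 1)
  obtain ⟨F, hF'⟩ := hq0 q hqp (by omega)
  refine hq1 q hqp (by omega) s ⟨fun a => F ⟨a.1.1, ?_, ?_⟩, ?_⟩
  · rw [← hTdef]
    exact a.1.2
  · exact congrArg Subtype.val a.2
  · intro a b hab
    have h1 := hF' hab
    have h2 : (a.1.1 : G) = b.1.1 := Subtype.mk.inj h1
    exact Subtype.ext (Subtype.ext h2)

end Pool.Agent.H7.S
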